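import Pool.Agent.H61.KU.TT

/-!
Module LIF of ku_modules: a map to the projective line which is homotopic to a constant map lifts.
-/

open Topology Set
open Pool.Agent.H59 Pool.Agent.H64.LB Pool.Agent.H24.LB
open Pool.Agent.H61.KU
open scoped unitInterval

namespace Pool.Agent.H69.KU

/-- distance of two lines, measured by the projections -/
noncomputable def kd (l l' : PN 1) : ℝ :=
  (‖HM l 0 0 - HM l' 0 0‖ + ‖HM l 0 1 - HM l' 0 1‖) +
    (‖HM l 1 0 - HM l' 1 0‖ + ‖HM l 1 1 - HM l' 1 1‖)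

theorem kd_self (l : PN 1) : kd l l = 0 := by
  simp [kd]

theorem continuous_kd {T : Type} [TopologicalSpace T] {l l' : T → PN 1} (hl : Continuous l)
    (hl' : Continuous l') : Continuous (fun t => kd (l t) (l' t)) := by
  have h : ∀ {m : T → PN 1}, Continuous m → ∀ i j, Continuous (fun t => HM (m t) i j) :=
    fun hm i j => (continuous_apply j).comp ((continuous_apply i).comp (continuous_HM.comp hm))
  have h2 : ∀ i j, Continuous (fun t => ‖HM (l t) i j - HM (l' t) i j‖) := fun i j =>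
    ((h hl i j).sub (h hl' i j)).norm
  exact ((h2 0 0).add (h2 0 1)).add ((h2 1 0).add (h2 1 1))

theorem pj_self {u : Fin 2 → ℂ} (h : u ≠ 0) : pj (P2 u) u = u := by
  rw [pj_P2 h, div_self (hp_self_ne h), one_smul]

/-- close lines are not orthogonal -/
theorem pj_ne {u : Fin 2 → ℂ} (h : u ≠ 0) (l : PN 1) (hk : kd (P2 u) l < 1 / 4) :
    pj l u ≠ 0 := by
  intro h0
  apply h
  have h1 : pj (P2 u) u = u := pj_self h
  have hn : ∀ i, ‖u i‖ ≤ (1 / 4) * ‖u‖ := by
    intro i
    have e1 : u i = (HM (P2 u) i 0 - HM l i 0) * u 0 + (HM (P2 u) i 1 - HM l i 1) * u 1 := by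
      have a1 := congrFun h1 i
      have a2 := congrFun h0 i
      simp only [pj, Pi.zero_apply] at a1 a2
      rw [← sub_zero (u i), ← a2]
      nth_rewrite 1 [← a1]
      ring
    have b0 : ‖u 0‖ ≤ ‖u‖ := norm_le_pi_norm u 0
    have b1 : ‖u 1‖ ≤ ‖u‖ := norm_le_pi_norm u 1
    have b2 : ‖HM (P2 u) i 0 - HM l i 0‖ + ‖HM (P2 u) i 1 - HM l i 1‖ ≤ 1 / 4 := by
      unfold kd at hk
      have c1 := norm_nonneg (HM (P2 u) 0 0 - HM l 0 0)
      have c2 := norm_nonneg (HM (P2 u) 0 1 - HM l 0 1)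
      have c3 := norm_nonneg (HM (P2 u) 1 0 - HM l 1 0)
      have c4 := norm_nonneg (HM (P2 u) 1 1 - HM l 1 1)
      fin_cases i
      · simp only [Fin.zero_eta]
        linarith
      · simp only [Fin.mk_one]
        linarith
    calc ‖u i‖ = ‖(HM (P2 u) i 0 - HM l i 0) * u 0 + (HM (P2 u) i 1 - HM l i 1) * u 1‖ :=
          congrArg _ e1
      _ ≤ ‖HM (P2 u) i 0 - HM l i 0‖ * ‖u 0‖ + ‖HM (P2 u) i 1 - HM l i 1‖ * ‖u 1‖ := by
          refine (norm_add_le _ _).trans ?_
          rw [norm_mul, norm_mul]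
      _ ≤ ‖HM (P2 u) i 0 - HM l i 0‖ * ‖u‖ + ‖HM (P2 u) i 1 - HM l i 1‖ * ‖u‖ :=
          add_le_add (mul_le_mul_of_nonneg_left b0 (norm_nonneg _))
            (mul_le_mul_of_nonneg_left b1 (norm_nonneg _))
      _ ≤ (1 / 4) * ‖u‖ := by
          rw [← add_mul]
          exact mul_le_mul_of_nonneg_right b2 (norm_nonneg _)
  have h2 : ‖u‖ ≤ (1 / 4) * ‖u‖ := (pi_norm_le_iff_of_nonneg (by positivity)).2 hn
  have h3 : ‖u‖ = 0 := by
    have := norm_nonneg u
    linarith
  exact norm_eq_zero.1 h3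

/-- uniform continuity along the homotopy -/
theorem unif {D : Type} [TopologicalSpace D] [CompactSpace D] (H : C(D × I, PN 1)) :
    ∃ δ : ℝ, 0 < δ ∧ ∀ (x : D) (t t' : I), |(t : ℝ) - t'| < δ →
      kd (H (x, t)) (H (x, t')) < 1 / 4 := by
  let K : D × I × I → ℝ := fun p => kd (H (p.1, p.2.1)) (H (p.1, p.2.2))
  have hK : Continuous K := by
    refine continuous_kd ?_ ?_
    · exact H.continuous.comp (continuous_fst.prodMk (continuous_fst.comp continuous_snd))
    · exact H.continuous.comp (continuous_fst.prodMk (continuous_snd.comp continuous_snd))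
  let S : Set (D × I × I) := {p | 1 / 4 ≤ K p}
  have hS : IsCompact S := (isClosed_le continuous_const hK).isCompact
  let d : D × I × I → ℝ := fun p => |(p.2.1 : ℝ) - p.2.2|
  have hd : Continuous d := by
    refine Continuous.abs (Continuous.sub ?_ ?_)
    · exact continuous_subtype_val.comp (continuous_fst.comp continuous_snd)
    · exact continuous_subtype_val.comp (continuous_snd.comp continuous_snd)
  rcases S.eq_empty_or_nonempty with h | h
  · refine ⟨1, one_pos, fun x t t' _ => ?_⟩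
    by_contra hc
    push Not at hc
    have : (x, t, t') ∈ S := hc
    rw [h] at this
    exact this
  · obtain ⟨p, hp, hmin⟩ := hS.exists_isMinOn h hd.continuousOn
    refine ⟨d p, ?_, fun x t t' hlt => ?_⟩
    · rcases (abs_nonneg ((p.2.1 : ℝ) - p.2.2)).lt_or_eq with h1 | h1
      · exact h1
      · exfalso
        have h2 : (p.2.1 : ℝ) = p.2.2 := by
          have := abs_eq_zero.1 h1.symm
          linarith
        have h3 : p.2.1 = p.2.2 := Subtype.ext h2
        have h4 : 1 / 4 ≤ kd (H (p.1, p.2.1)) (H (p.1, p.2.2)) := hp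
        rw [h3, kd_self] at h4
        norm_num at h4
    · by_contra hc
      push Not at hc
      have h1 : (x, t, t') ∈ S := hc
      have h2 : d p ≤ d (x, t, t') := hmin h1
      exact absurd hlt (not_lt.2 h2)

theorem pf_lif : T_LIF := by
  intro D _ _ H l hl
  obtain ⟨δ, hδ, hK⟩ := unif H
  obtain ⟨n, hn⟩ := exists_nat_one_div_lt hδ
  set N : ℕ := n + 1 with hN
  let τ : ℕ → I := fun k => Set.projIcc (0 : ℝ) 1 zero_le_one ((k : ℝ) / N)
  have hN0 : (0 : ℝ) < N := by rw [hN]; positivity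
  have hτ0 : τ 0 = 0 := by
    have : ((0 : ℕ) : ℝ) / N = 0 := by simp
    simp only [τ, this]
    exact Set.projIcc_left _
  have hτN : τ N = 1 := by
    have : (N : ℝ) / N = 1 := div_self hN0.ne'
    simp only [τ, this]
    exact Set.projIcc_right _
  have hstep : ∀ k, |(τ k : ℝ) - τ (k + 1)| < δ := by
    intro k
    refine lt_of_le_of_lt (Set.abs_projIcc_sub_projIcc zero_le_one) ?_
    have : ((k : ℕ) : ℝ) / N - ((k + 1 : ℕ) : ℝ) / N = -(1 / N) := by
      push_cast
      ring
    rw [this, abs_neg, abs_of_pos (by positivity), hN]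
    push_cast
    exact hn
  have key : ∀ k : ℕ, ∃ g : C(D, NZ 1), ∀ x, pt (g x) = H (x, τ k) := by
    intro k
    induction k with
    | zero =>
      obtain ⟨v, rfl⟩ := exists_pt l
      exact ⟨ContinuousMap.const D v, fun x => by rw [hτ0, hl]; rfl⟩
    | succ k ih =>
      obtain ⟨g, hg⟩ := ih
      have hP : ∀ x, P2 (g x).1 = H (x, τ k) := fun x => by rw [P2_eq (g x).2]; exact hg x
      have hne : ∀ x, pj (H (x, τ (k + 1))) (g x).1 ≠ 0 := by
        intro x
        refine pj_ne (g x).2 _ ?_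
        rw [hP]
        exact hK x _ _ (hstep k)
      have hc : Continuous fun x => pj (H (x, τ (k + 1))) (g x).1 :=
        continuous_pj (H.continuous.comp (continuous_id.prodMk continuous_const))
          (continuous_subtype_val.comp g.continuous)
      refine ⟨⟨fun x => ⟨pj (H (x, τ (k + 1))) (g x).1, hne x⟩, hc.subtype_mk _⟩, fun x => ?_⟩
      change pt ⟨pj (H (x, τ (k + 1))) (g x).1, hne x⟩ = H (x, τ (k + 1))
      rw [← P2_eq (hne x)]
      obtain ⟨w, hw, he⟩ := exists_P2 (H (x, τ (k + 1)))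
      have h1 := hne x
      rw [he, pj_P2 hw] at h1 ⊢
      have h2 : hp w (g x).1 / hp w w ≠ 0 := by
        intro h3
        apply h1
        rw [h3, zero_smul]
      exact P2_smul _ h2 hw
  obtain ⟨g, hg⟩ := key N
  exact ⟨g, fun x => by rw [hg, hτN]⟩

end Pool.Agent.H69.KU
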