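import Pool.Agent.H61.KU.TT

/-!
Module TRV of ku_modules: trivialisation of `PD δ` over a set on which `δ` lifts.
-/

open Topology Set
open Pool.Agent.H59 Pool.Agent.H64.LB Pool.Agent.H24.LB
open Pool.Agent.H61.KU
open scoped unitInterval

namespace Pool.Agent.H69.KU

theorem hp_smul_right (u w : Fin 2 → ℂ) (a : ℂ) : hp u (a • w) = a * hp u w := by
  simp only [hp, Pi.smul_apply, smul_eq_mul]
  ring

theorem cons_eta (u : Fin 2 → ℂ) : (![u 0, u 1] : Fin 2 → ℂ) = u := by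
  funext i
  fin_cases i <;> simp

theorem cons_ne {a b : ℂ} (h : ¬ (a = 0 ∧ b = 0)) : (![a, b] : Fin 2 → ℂ) ≠ 0 := by
  intro h0
  apply h
  have e0 := congrFun h0 0
  have e1 := congrFun h0 1
  simp at e0 e1
  exact ⟨e0, e1⟩

theorem smul_cons (t a b : ℂ) : t • (![a, b] : Fin 2 → ℂ) = ![t * a, t * b] := by
  funext i
  fin_cases i <;> simp

/-- `[a : b] ↦ [a w : b]` -/
noncomputable def FF (w : NZ 1) : PN 1 → PN 2 :=
  Quotient.lift (fun v : NZ 1 => P3 (v.1 0 • w.1) (v.1 1)) (by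
    rintro v v' ⟨c, hc, h⟩
    have h0 : v'.1 0 • w.1 = c • (v.1 0 • w.1) := by
      rw [h, Pi.smul_apply, smul_eq_mul, mul_smul]
    have h1 : v'.1 1 = c * v.1 1 := by
      rw [h, Pi.smul_apply, smul_eq_mul]
    rw [h0, h1]
    refine (P3_smul c hc ?_).symm
    rintro ⟨e0, e1⟩
    rcases smul_eq_zero.1 e0 with e2 | e2
    · apply v.2
      rw [← cons_eta v.1, e2, e1]
      funext i
      fin_cases i <;> simp
    · exact w.2 e2)

theorem FF_P2 (w : NZ 1) {a b : ℂ} (h : ¬ (a = 0 ∧ b = 0)) :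
    FF w (P2 ![a, b]) = P3 (a • w.1) b := by
  rw [P2_eq (cons_ne h)]
  change P3 ((![a, b] : Fin 2 → ℂ) 0 • w.1) ((![a, b] : Fin 2 → ℂ) 1) = _
  simp

/-- `[u : c] ↦ [⟨w, u⟩ : c ⟨w, w⟩]` -/
noncomputable def GG (w : NZ 1) : PN 2 → PN 1 :=
  Quotient.lift (fun v : NZ 2 => P2 ![hp w.1 ![v.1 0, v.1 1], v.1 2 * hp w.1 w.1]) (by
    rintro v v' ⟨c, hc, h⟩
    have h0 : (![v'.1 0, v'.1 1] : Fin 2 → ℂ) = c • ![v.1 0, v.1 1] := by
      funext i
      fin_cases i <;> simp [h]
    have h1 : v'.1 2 = c * v.1 2 := by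
      rw [h, Pi.smul_apply, smul_eq_mul]
    rw [h0, h1, hp_smul_right, mul_assoc, ← smul_cons]
    by_cases hz : (![hp w.1 ![v.1 0, v.1 1], v.1 2 * hp w.1 w.1] : Fin 2 → ℂ) = 0
    · rw [hz, smul_zero]
    · exact (P2_smul c hc hz).symm)

theorem GG_P3 (w : NZ 1) {u : Fin 2 → ℂ} {c : ℂ} (h : ¬ (u = 0 ∧ c = 0)) :
    GG w (P3 u c) = P2 ![hp w.1 u, c * hp w.1 w.1] := by
  have h' : v3 u c ≠ 0 := by rw [Ne, v3_eq_zero]; exact h
  rw [P3_eq h']
  change P2 ![hp w.1 ![v3 u c 0, v3 u c 1], v3 u c 2 * hp w.1 w.1] = _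
  have e : (![v3 u c 0, v3 u c 1] : Fin 2 → ℂ) = u := by
    funext i
    fin_cases i <;> simp [v3]
  rw [e]
  rfl

theorem ns_smul {w : NZ 1} {a c : ℂ} (h : ¬ (a = 0 ∧ c = 0)) : ¬ (a • w.1 = 0 ∧ c = 0) := by
  rintro ⟨e0, e1⟩
  rcases smul_eq_zero.1 e0 with e2 | e2
  · exact h ⟨e2, e1⟩
  · exact w.2 e2

theorem GG_P3' (w : NZ 1) {a c : ℂ} (h : ¬ (a = 0 ∧ c = 0)) :
    GG w (P3 (a • w.1) c) = P2 ![a, c] := by
  rw [GG_P3 w (ns_smul h), hp_smul_right, mul_comm a, mul_comm c, ← smul_cons,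
    P2_smul _ (hp_self_ne w.2) (cons_ne h)]

/-- points of `PDs δ` over a point at which `δ` is lifted -/
theorem mem_aux (δ : C(S2, PN 1)) (x : S2) (w : NZ 1) (hw : pt w = δ x) (y : PN 2) :
    (x, y) ∈ PDs δ ↔ ∃ a c : ℂ, ¬ (a = 0 ∧ c = 0) ∧ y = P3 (a • w.1) c := by
  constructor
  · rintro ⟨u, c, h, he, h2⟩
    simp only at he h2
    by_cases hu : u = 0
    · refine ⟨0, c, fun h3 => h ⟨hu, h3.2⟩, ?_⟩
      rw [he, hu, zero_smul]
    · have h3 : P2 u = δ x := by
        rcases h2 with h2 | h2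
        · exact absurd h2 hu
        · exact h2
      rw [← hw, show pt w = P2 w.1 from (P2_eq w.2).symm, eq_comm,
        P2_eq_iff w.2 hu] at h3
      obtain ⟨a, ha, hau⟩ := h3
      refine ⟨a, c, fun h4 => ha h4.1, ?_⟩
      rw [he, hau]
  · rintro ⟨a, c, h, he⟩
    refine ⟨a • w.1, c, ns_smul h, he, ?_⟩
    by_cases ha : a = 0
    · left; rw [ha, zero_smul]
    · right
      rw [P2_smul a ha w.2, P2_eq w.2]
      exact hw

theorem continuous_hp {T : Type} [TopologicalSpace T] {u w : T → Fin 2 → ℂ} (hu : Continuous u)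
    (hw : Continuous w) : Continuous (fun t => hp (u t) (w t)) := by
  have hu' : ∀ j, Continuous (fun t => u t j) := fun j => (continuous_apply j).comp hu
  have hw' : ∀ j, Continuous (fun t => w t j) := fun j => (continuous_apply j).comp hw
  exact ((Complex.continuous_conj.comp (hu' 0)).mul (hw' 0)).add
    ((Complex.continuous_conj.comp (hu' 1)).mul (hw' 1))

theorem continuous_FF {D : Type} [TopologicalSpace D] (g : C(D, NZ 1)) :
    Continuous (fun p : D × PN 1 => FF (g p.1) p.2) := by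
  refine continuous_desc_univ (fun p : D × PN 1 => FF (g p.1) p.2) ?_
  change Continuous (fun p : D × NZ 1 => P3 (p.2.1 0 • (g p.1).1) (p.2.1 1))
  have hv : ∀ i, Continuous fun p : D × NZ 1 => p.2.1 i := fun i =>
    (continuous_apply i).comp (continuous_subtype_val.comp continuous_snd)
  have hg : Continuous fun p : D × NZ 1 => (g p.1).1 :=
    continuous_subtype_val.comp (g.continuous.comp continuous_fst)
  refine continuous_P3 ((hv 0).smul hg) (hv 1) fun p => ?_
  refine ns_smul (w := g p.1) ?_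
  rintro ⟨e0, e1⟩
  apply p.2.2
  rw [← cons_eta p.2.1, e0, e1]
  funext i
  fin_cases i <;> simp

theorem pf_trv : T_TRV := by
  intro δ D g hg
  have hnum : ∀ l : PN 1, ∃ a b : ℂ, ¬ (a = 0 ∧ b = 0) ∧ l = P2 ![a, b] := by
    intro l
    obtain ⟨u, hu, rfl⟩ := exists_P2 l
    refine ⟨u 0, u 1, ?_, by rw [cons_eta]⟩
    rintro ⟨e0, e1⟩
    apply hu
    rw [← cons_eta u, e0, e1]
    funext i
    fin_cases i <;> simp
  have hFmem : ∀ (x : D) (l : PN 1), (x.1, FF (g x) l) ∈ PDs δ := by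
    intro x l
    obtain ⟨a, b, h, rfl⟩ := hnum l
    rw [mem_aux δ x.1 (g x) (hg x)]
    exact ⟨a, b, h, FF_P2 (g x) h⟩
  -- continuity of the inverse
  let A : Set (D × PN 2) := {q | (q.1.1, q.2) ∈ PDs δ}
  obtain ⟨GA, hGA⟩ : ∃ GA : A → PN 1, ∀ q, GA q = GG (g q.1.1) q.1.2 := ⟨_, fun _ => rfl⟩
  have hG : Continuous GA := by
    have hGe : GA = fun q : A => GG (g q.1.1) q.1.2 := funext hGA
    rw [hGe]
    refine continuous_desc A (fun q : A => GG (g q.1.1) q.1.2) ?_
    change Continuous (fun p : {p : D × NZ 2 // (p.1, pt p.2) ∈ A} =>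
      P2 ![hp (g p.1.1).1 ![p.1.2.1 0, p.1.2.1 1], p.1.2.1 2 * hp (g p.1.1).1 (g p.1.1).1])
    have hv : ∀ i, Continuous fun p : {p : D × NZ 2 // (p.1, pt p.2) ∈ A} => p.1.2.1 i :=
      fun i => (continuous_apply i).comp (continuous_subtype_val.comp
        (continuous_snd.comp continuous_subtype_val))
    have hgc : Continuous fun p : {p : D × NZ 2 // (p.1, pt p.2) ∈ A} => (g p.1.1).1 :=
      continuous_subtype_val.comp (g.continuous.comp (continuous_fst.comp continuous_subtype_val))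
    refine continuous_P2 ?_ ?_
    · have h2 : Continuous fun p : {p : D × NZ 2 // (p.1, pt p.2) ∈ A} =>
          (![p.1.2.1 0, p.1.2.1 1] : Fin 2 → ℂ) := by
        refine continuous_pi fun i => ?_
        fin_cases i
        · exact hv 0
        · exact hv 1
      refine continuous_pi fun i => ?_
      fin_cases i
      · exact continuous_hp hgc h2
      · exact (hv 2).mul (continuous_hp hgc hgc)
    · rintro ⟨⟨x, v⟩, hxv⟩
      have h1 : (x.1, pt v) ∈ PDs δ := hxv
      rw [mem_aux δ x.1 (g x) (hg x)] at h1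
      obtain ⟨a, c, h, he⟩ := h1
      have hne := ns_smul (w := g x) h
      have hv3 : ¬ ((![v.1 0, v.1 1] : Fin 2 → ℂ) = 0 ∧ v.1 2 = 0) := by
        rw [← v3_eq_zero, v3_zero]; exact v.2
      have he2 : pt v = P3 ![v.1 0, v.1 1] (v.1 2) := by
        rw [P3_eq (by rw [Ne, v3_eq_zero]; exact hv3)]
        exact congrArg pt (Subtype.ext (v3_zero v.1).symm)
      rw [he2, eq_comm, P3_eq_iff hne hv3] at he
      obtain ⟨t, ht, ht1, ht2⟩ := he
      simp only
      rw [ht1, ht2, hp_smul_right, hp_smul_right]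
      apply cons_ne
      have hN := hp_self_ne (g x).2
      rintro ⟨e0, e1⟩
      apply h
      constructor
      · rcases mul_eq_zero.1 e0 with e2 | e2
        · exact absurd e2 ht
        · rcases mul_eq_zero.1 e2 with e3 | e3
          · exact e3
          · exact absurd e3 hN
      · rcases mul_eq_zero.1 e1 with e2 | e2
        · rcases mul_eq_zero.1 e2 with e3 | e3
          · exact absurd e3 ht
          · exact e3
        · exact absurd e2 hN
  let e : D × PN 1 ≃ₜ {p : PD δ // p.1.1 ∈ D} :=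
    { toFun := fun p => ⟨⟨(p.1.1, FF (g p.1) p.2), hFmem p.1 p.2⟩, p.1.2⟩
      invFun := fun p => (⟨p.1.1.1, p.2⟩, GA ⟨(⟨p.1.1.1, p.2⟩, p.1.1.2), p.1.2⟩)
      left_inv := by
        rintro ⟨x, l⟩
        obtain ⟨a, b, h, rfl⟩ := hnum l
        refine Prod.ext rfl ?_
        change GA ⟨(⟨x.1, x.2⟩, FF (g x) (P2 ![a, b])), _⟩ = P2 ![a, b]
        rw [hGA]
        change GG (g x) (FF (g x) (P2 ![a, b])) = P2 ![a, b]
        rw [FF_P2 _ h, GG_P3' _ h]
      right_inv := by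
        rintro ⟨⟨⟨x, y⟩, hy⟩, hx⟩
        have hy' := hy
        rw [mem_aux δ x (g ⟨x, hx⟩) (hg ⟨x, hx⟩)] at hy'
        obtain ⟨a, c, h, he⟩ := hy'
        refine Subtype.ext (Subtype.ext (Prod.ext rfl ?_))
        change FF (g ⟨x, hx⟩) (GA ⟨(⟨x, hx⟩, y), hy⟩) = y
        rw [hGA]
        change FF (g ⟨x, hx⟩) (GG (g ⟨x, hx⟩) y) = y
        rw [he, GG_P3' _ h, FF_P2 _ h]
      continuous_toFun := by
        refine Continuous.subtype_mk (Continuous.subtype_mk ?_ _) _
        exact (continuous_subtype_val.comp continuous_fst).prodMk (continuous_FF g)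
      continuous_invFun := by
        have h1 : Continuous fun p : {p : PD δ // p.1.1 ∈ D} => (⟨p.1.1.1, p.2⟩ : D) := by
          refine Continuous.subtype_mk ?_ _
          exact continuous_fst.comp (continuous_subtype_val.comp continuous_subtype_val)
        refine h1.prodMk ?_
        have h2 : Continuous fun p : {p : PD δ // p.1.1 ∈ D} =>
            (⟨(⟨p.1.1.1, p.2⟩, p.1.1.2), p.1.2⟩ : A) := by
          refine Continuous.subtype_mk (h1.prodMk ?_) _
          exact continuous_snd.comp (continuous_subtype_val.comp continuous_subtype_val)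
        exact hG.comp h2 }
  refine ⟨e, ?_⟩
  intro x a b h
  change (x.1, FF (g x) (P2 ![a, b])) = _
  rw [FF_P2 _ h]

end Pool.Agent.H69.KU
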